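import Mathlib

/-!
# Nonempty quasi-relative interior and empty face relative interior (MP_98aad6_an, Q1: disproved)

In the Hilbert space `ℓ²(ℕ)` let `C` consist of `0` and the finitely supported vectors whose last
nonzero coordinate is positive. `C` is a dense convex cone, so every point of `C` is in its
quasi-relative interior. If the coordinates of `x ∈ C` vanish after the index `n`, the smallest face
of `C` which contains `x` lies in the span of the first coordinate vectors up to `n`, so it is not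
dense in `C`, and the face relative interior of `C` is empty.
-/

set_option autoImplicit false

open Set Topology Filter
open scoped ENNReal

namespace Pool.Agent.Results.MP_98aad6_an.EmptyFaceInterior

section defs

variable {X : Type*} [AddCommGroup X] [Module ℝ X]

/-- `F` is a face of the set `C`: a convex subset of `C` such that, whenever `x ∈ F` lies in the
open segment `(y, z)` with `y, z ∈ C`, both `y` and `z` belong to `F`. -/
def IsFaceOf (C F : Set X) : Prop :=
  F ⊆ C ∧ Convex ℝ F ∧ ∀ x ∈ F, ∀ y ∈ C, ∀ z ∈ C, x ∈ openSegment ℝ y z → y ∈ F ∧ z ∈ F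

/-- `F_min(x, C)`, the smallest face of `C` containing `x`: the intersection of all faces of `C`
which contain `x`. -/
def minFace (C : Set X) (x : X) : Set X := ⋂₀ {F | IsFaceOf C F ∧ x ∈ F}

/-- `cone (C - x)`. -/
def coneFrom (C : Set X) (x : X) : Set X := {v | ∃ y ∈ C, ∃ α : ℝ, 0 ≤ α ∧ v = α • (y - x)}

variable [TopologicalSpace X]

/-- The face relative interior of `C`. -/
def fri (C : Set X) : Set X := {x | x ∈ C ∧ C ⊆ closure (minFace C x)}

/-- The quasi-relative interior of `C`: the points `x ∈ C` for which the closure of `cone (C - x)`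
is a linear subspace. -/
def qri (C : Set X) : Set X :=
  {x | x ∈ C ∧ ∃ L : Submodule ℝ X, (L : Set X) = closure (coneFrom C x)}

end defs

/-- The Hilbert space `ℓ²(ℕ)`. -/
abbrev L2 : Type := lp (fun _ : ℕ => ℝ) 2

/-- the cone -/
def C : Set L2 := {x | x = 0 ∨ ∃ n : ℕ, 0 < x n ∧ ∀ m, n < m → x m = 0}

lemma comb_last {x y : L2} {a b : ℝ} (ha : 0 < a) (hb : 0 < b) (hx : x ∈ C) {n : ℕ}
    (hn : 0 < y n) (hm : ∀ m, n < m → y m = 0) :
    ∃ k, n ≤ k ∧ 0 < (a • x + b • y) k ∧ (∀ m, k < m → x m = 0 ∧ y m = 0) := by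
  rcases hx with rfl | ⟨j, hj, hjm⟩
  · refine ⟨n, le_rfl, ?_, fun m hm' => ⟨rfl, hm m hm'⟩⟩
    simp only [smul_zero, zero_add, lp.coeFn_smul, Pi.smul_apply, smul_eq_mul]
    positivity
  · rcases lt_trichotomy j n with h | h | h
    · refine ⟨n, le_rfl, ?_, fun m hm' => ⟨hjm m (h.trans hm'), hm m hm'⟩⟩
      simp only [lp.coeFn_add, lp.coeFn_smul, Pi.add_apply, Pi.smul_apply, smul_eq_mul, hjm n h,
        mul_zero, zero_add]
      positivity
    · subst h
      refine ⟨j, le_rfl, ?_, fun m hm' => ⟨hjm m hm', hm m hm'⟩⟩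
      simp only [lp.coeFn_add, lp.coeFn_smul, Pi.add_apply, Pi.smul_apply, smul_eq_mul]
      positivity
    · refine ⟨j, h.le, ?_, fun m hm' => ⟨hjm m hm', hm m (h.trans hm')⟩⟩
      simp only [lp.coeFn_add, lp.coeFn_smul, Pi.add_apply, Pi.smul_apply, smul_eq_mul, hm j h,
        mul_zero, add_zero]
      positivity

/-- last coordinates of combinations -/
lemma comb_last' {x y : L2} {a b : ℝ} (ha : 0 < a) (hb : 0 < b) (hx : x ∈ C) (hy : y ∈ C) {n : ℕ}
    (h0 : ∀ m, n < m → (a • x + b • y) m = 0) : ∀ m, n < m → x m = 0 ∧ y m = 0 := by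
  rcases hy with rfl | ⟨k, hk, hkm⟩
  · rcases hx with rfl | ⟨k, hk, hkm⟩
    · intro m _; exact ⟨rfl, rfl⟩
    · obtain ⟨l, hl1, hl2, hl3⟩ := comb_last hb ha (Or.inl rfl : (0 : L2) ∈ C) hk hkm
      intro m hm
      by_cases hlm : l < m
      · exact ⟨(hl3 m hlm).2, rfl⟩
      · exfalso
        have := h0 l (by omega)
        rw [add_comm] at this
        exact absurd this hl2.ne'
  · obtain ⟨l, hl1, hl2, hl3⟩ := comb_last ha hb hx hk hkm
    intro m hm
    by_cases hlm : l < m
    · exact hl3 m hlm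
    · exfalso
      exact absurd (h0 l (by omega)) hl2.ne'

lemma comb_mem {x y : L2} {a b : ℝ} (ha : 0 < a) (hb : 0 < b) (hx : x ∈ C) (hy : y ∈ C) :
    a • x + b • y ∈ C := by
  have key : ∀ {x y : L2} {a b : ℝ}, 0 < a → 0 < b → x ∈ C → y ∈ C → y ≠ 0 →
      a • x + b • y ∈ C := by
    intro x y a b ha hb hx hy hy0
    rcases hy with rfl | ⟨k, hk, hkm⟩
    · exact absurd rfl hy0
    obtain ⟨l, -, hl2, hl3⟩ := comb_last ha hb hx hk hkm
    refine Or.inr ⟨l, hl2, fun m hm => ?_⟩
    simp only [lp.coeFn_add, lp.coeFn_smul, Pi.add_apply, Pi.smul_apply, smul_eq_mul,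
      (hl3 m hm).1, (hl3 m hm).2, mul_zero, add_zero]
  by_cases hy0 : y = 0
  · by_cases hx0 : x = 0
    · subst hy0 hx0
      left; simp
    · rw [add_comm]
      exact key hb ha hy hx hx0
  · exact key ha hb hx hy hy0

lemma convex_C : Convex ℝ C := by
  rw [convex_iff_forall_pos]
  intro x hx y hy a b ha hb _
  exact comb_mem ha hb hx hy

/-- the faces -/
lemma isFace (n : ℕ) : IsFaceOf C {y | y ∈ C ∧ ∀ m, n < m → y m = 0} := by
  refine ⟨fun y hy => hy.1, ?_, ?_⟩
  · rw [convex_iff_forall_pos]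
    rintro x ⟨hx, hx'⟩ y ⟨hy, hy'⟩ a b ha hb _
    refine ⟨comb_mem ha hb hx hy, fun m hm => ?_⟩
    simp only [lp.coeFn_add, lp.coeFn_smul, Pi.add_apply, Pi.smul_apply, smul_eq_mul, hx' m hm,
      hy' m hm, mul_zero, add_zero]
  · rintro x ⟨_, hx⟩ y hy z hz ⟨a, b, ha, hb, _, rfl⟩
    have := comb_last' ha hb hy hz hx
    exact ⟨⟨hy, fun m hm => (this m hm).1⟩, ⟨hz, fun m hm => (this m hm).2⟩⟩

lemma single_ne (n m : ℕ) (c : ℝ) (h : m ≠ n) :
    (lp.single (E := fun _ : ℕ => ℝ) 2 n c) m = 0 := by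
  exact lp.single_apply_ne (E := fun _ : ℕ => ℝ) 2 n c h

lemma single_mem (n : ℕ) (c : ℝ) (hc : 0 < c) : lp.single 2 n c ∈ C := by
  refine Or.inr ⟨n, ?_, fun m hm => ?_⟩
  · simpa [lp.single_apply_self] using hc
  · exact single_ne n m c (by omega)

lemma fri_empty : fri C = ∅ := by
  rw [Set.eq_empty_iff_forall_notMem]
  rintro x ⟨hx, hsub⟩
  obtain ⟨n, hn⟩ : ∃ n : ℕ, ∀ m, n < m → x m = 0 := by
    rcases hx with rfl | ⟨n, -, hn⟩
    · exact ⟨0, fun _ _ => rfl⟩
    · exact ⟨n, hn⟩
  have h1 : minFace C x ⊆ {y : L2 | y (n + 1) = 0} := by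
    intro y hy
    have := hy _ ⟨isFace n, hx, hn⟩
    exact this.2 (n + 1) (by omega)
  have hcont : Continuous (fun y : L2 => y (n + 1)) := by
    have : Continuous (fun y : L2 => (fun i => y i : ℕ → ℝ)) := lp.uniformContinuous_coe.continuous
    exact (continuous_apply (n + 1)).comp this
  have h2 : IsClosed {y : L2 | y (n + 1) = 0} := isClosed_eq hcont continuous_const
  have h3 := closure_minimal h1 h2
  have h4 := h3 (hsub (single_mem (n + 1) 1 one_pos))
  have h5 : (lp.single (E := fun _ : ℕ => ℝ) 2 (n + 1) (1 : ℝ)) (n + 1) = 0 := h4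
  rw [lp.single_apply_self] at h5
  exact one_ne_zero h5

lemma dense_C : Dense C := by
  intro v
  have h1 : Tendsto (fun N : ℕ => ∑ i ∈ Finset.range N, lp.single 2 i (v i)) atTop (𝓝 v) :=
    (lp.hasSum_single (by norm_num) v).tendsto_sum_nat
  have h2 : Tendsto (fun N : ℕ => lp.single (E := fun _ : ℕ => ℝ) 2 N (1 / ((N : ℝ) + 1))) atTop
      (𝓝 0) := by
    rw [tendsto_zero_iff_norm_tendsto_zero]
    have : (fun N : ℕ => ‖lp.single (E := fun _ : ℕ => ℝ) 2 N (1 / ((N : ℝ) + 1))‖) =
        fun N : ℕ => 1 / ((N : ℝ) + 1) := by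
      funext N
      rw [lp.norm_single (by norm_num)]
      rw [Real.norm_of_nonneg (by positivity)]
    rw [this]
    exact tendsto_one_div_add_atTop_nhds_zero_nat
  have h3 := h1.add h2
  rw [add_zero] at h3
  refine mem_closure_of_tendsto h3 (Eventually.of_forall fun N => ?_)
  refine Or.inr ⟨N, ?_, fun m hm => ?_⟩
  · have : (∑ i ∈ Finset.range N, lp.single 2 i (v i) : L2) N = 0 := by
      rw [lp.coeFn_sum, Finset.sum_apply]
      refine Finset.sum_eq_zero fun i hi => ?_
      exact single_ne i _ (v i) (by have := Finset.mem_range.1 hi; omega)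
    rw [lp.coeFn_add, Pi.add_apply, this, lp.single_apply_self]
    positivity
  · have : (∑ i ∈ Finset.range N, lp.single 2 i (v i) : L2) m = 0 := by
      rw [lp.coeFn_sum, Finset.sum_apply]
      refine Finset.sum_eq_zero fun i hi => ?_
      exact single_ne i _ (v i) (by have := Finset.mem_range.1 hi; omega)
    rw [lp.coeFn_add, Pi.add_apply, this, single_ne N m _ (by omega), add_zero]

lemma separable_L2 : TopologicalSpace.SeparableSpace L2 := by
  rw [← TopologicalSpace.isSeparable_univ_iff]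
  have h1 : (Set.range (fun i : ℕ => lp.single (E := fun _ : ℕ => ℝ) 2 i (1 : ℝ))).Countable :=
    countable_range _
  have h2 : TopologicalSpace.IsSeparable ((Submodule.span ℝ
      (Set.range (fun i : ℕ => lp.single (E := fun _ : ℕ => ℝ) 2 i (1 : ℝ))) : Submodule ℝ L2) :
      Set L2) := h1.isSeparable.span
  refine h2.closure.mono fun v _ => ?_
  refine mem_closure_of_tendsto (lp.hasSum_single (by norm_num) v).tendsto_sum_nat
    (Eventually.of_forall fun N => ?_)
  refine Submodule.sum_mem _ fun i _ => ?_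
  have : lp.single (E := fun _ : ℕ => ℝ) 2 i (v i) =
      (v i) • lp.single (E := fun _ : ℕ => ℝ) 2 i (1 : ℝ) := by
    rw [← lp.single_smul, smul_eq_mul, mul_one]
  rw [this]
  exact Submodule.smul_mem _ _ (Submodule.subset_span ⟨i, rfl⟩)

/-- There are a separable real Hilbert space `X` and a convex set `C ⊆ X` whose quasi-relative
interior is nonempty and whose face relative interior is empty. -/
theorem result : ∃ (X : Type) (_ : NormedAddCommGroup X) (_ : InnerProductSpace ℝ X),
    CompleteSpace X ∧ TopologicalSpace.SeparableSpace X ∧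
      ∃ C : Set X, Convex ℝ C ∧ (qri C).Nonempty ∧ fri C = ∅ := by
  refine ⟨L2, inferInstance, inferInstance, inferInstance, separable_L2,
    C, convex_C, ⟨0, Or.inl rfl, ⊤, ?_⟩, fri_empty⟩
  have h : C ⊆ coneFrom C 0 := by
    intro y hy
    exact ⟨y, hy, 1, zero_le_one, by simp⟩
  have h2 : Dense (coneFrom C (0 : L2)) := dense_C.mono h
  rw [h2.closure_eq]
  rfl

end Pool.Agent.Results.MP_98aad6_an.EmptyFaceInterior
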